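import Mathlib
import Pool.Agent.Y971.HG.Span

/-!
# Q2 of MP_d1698a_pr: a necessary condition, and scales `f` for which the answer is no

Let `T_n` be a critical Galton-Watson tree conditioned to have `n` vertices. If
`H(T_n) / (f n * log n)` converges in probability to a constant `c > 0`, then, with `d` the
greatest common divisor of the `k` with `μ k > 0`, `T_n` is defined for all large `n ≡ 1` modulo
`d`, and `f (n + d) / f n → 1` along these `n`. In particular Q2 has a negative answer for functions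
`f` which grow arbitrarily slowly, although (`HeightScales`) every `f` is possible in Q1.

Definitions of trees and laws: `Pool.Agent.Results.MP_d1698a_pr.HeightScales`.
-/

open MeasureTheory ProbabilityTheory Filter
open scoped ENNReal Topology

namespace Pool.Agent.Results.MP_d1698a_pr.LocalRegularity

open Pool.Agent.Results.MP_d1698a_pr.HeightScales

noncomputable section

/-- `H(T_n) / (f n * log n)` tends to `c` in probability, along the `n` for which `T_n` is
defined (`condLaw μ n` is the zero measure for the other ones). -/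
def HeightConverges (μ : PMF ℕ) (f : ℕ → ℝ) (c : ℝ) : Prop :=
  ∀ δ : ℝ, 0 < δ →
    Tendsto (fun n : ℕ => condLaw μ n {ξ | δ < |(height ξ : ℝ) / (f n * Real.log n) - c|})
      atTop (𝓝 0)

end

noncomputable section

open Pool.Agent.Y971.HG

theorem necessary {μ : PMF ℕ} {f : ℕ → ℝ} {c : ℝ} (hμ : IsCritical μ)
    (hpos : ∀ n : ℕ, 1 ≤ n → 0 < f n) (hf : Tendsto f atTop atTop) (hc : 0 < c)
    (hcv : HeightConverges μ f c) (k : ℕ) (hk : 1 ≤ k) (hk0 : μ k ≠ 0) (ε : ℝ) (hε : 0 < ε) :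
    ∃ N : ℕ, ∀ n : ℕ, N ≤ n → 0 < gwLaw μ (sizeEvent n) →
      0 < gwLaw μ (sizeEvent (n + k)) ∧ |f (n + k) / f n - 1| < ε := by
  obtain ⟨k, rfl⟩ : ∃ k' : ℕ, k = k' + 1 := ⟨k - 1, by omega⟩
  have hb := bb_pos μ k (crit_zero hμ) hk0
  obtain ⟨N1, hN1⟩ := ratio_all hμ k hk0
  obtain ⟨N2, hN2⟩ := step_close hc hpos hf hcv k hb 4 (by norm_num) ε hε
  refine ⟨max 1 (max N1 N2), fun n hn h => ?_⟩
  have h1 : 1 ≤ n := (le_max_left _ _).trans hn
  have h2 : N1 ≤ n := (le_max_left _ _).trans ((le_max_right _ _).trans hn)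
  have h3 : N2 ≤ n := (le_max_right _ _).trans ((le_max_right _ _).trans hn)
  have hU := (U_pos_iff μ n).2 h
  refine ⟨(U_pos_iff μ _).1 (lt_of_lt_of_le (mul_pos hb hU) (U_step μ k n h1)), ?_⟩
  exact hN2 n h3 hU (hN1 n h2 hU)

theorem necessary_span {μ : PMF ℕ} {f : ℕ → ℝ} {c : ℝ} (hμ : IsCritical μ)
    (hpos : ∀ n : ℕ, 1 ≤ n → 0 < f n) (hf : Tendsto f atTop atTop) (hc : 0 < c)
    (hcv : HeightConverges μ f c) :
    ∃ d : ℕ, 1 ≤ d ∧ (∀ k : ℕ, μ k ≠ 0 → d ∣ k) ∧
      (∃ N : ℕ, ∀ n : ℕ, N ≤ n → n ≡ 1 [MOD d] → 0 < gwLaw μ (sizeEvent n)) ∧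
      Tendsto (fun m : ℕ => f (1 + (m + 1) * d) / f (1 + m * d)) atTop (𝓝 1) := by
  obtain ⟨k, hk, hk0⟩ := crit_two hμ
  obtain ⟨d, hd1, hd2, hd3⟩ := exists_span (P := fun n => 0 < gwLaw μ (sizeEvent n)) hpos
    (fun k => μ k ≠ 0) (fun k h1 h2 ε hε => necessary hμ hpos hf hc hcv k h1 h2 ε hε)
    ⟨k, by omega, hk0⟩
  obtain ⟨N0, hN0⟩ := hd3 1 one_pos
  have hstart : 0 < gwLaw μ (sizeEvent (1 + N0 * k)) := by
    obtain ⟨k, rfl⟩ : ∃ k' : ℕ, k = k' + 1 := ⟨k - 1, by omega⟩
    have hb := bb_pos μ k (crit_zero hμ) hk0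
    exact (U_pos_iff μ _).1 (sizes_pos' k 1 le_rfl hb
      ((U_pos_iff μ 1).2 (size_one (crit_zero hμ))) N0)
  have hle : N0 ≤ 1 + N0 * k := by nlinarith
  have hup : ∀ j : ℕ, 0 < gwLaw μ (sizeEvent (1 + N0 * k + j * d)) := by
    intro j
    induction j with
    | zero => simpa using hstart
    | succ j ih =>
      have h1 := (hN0 (1 + N0 * k + j * d) (by omega) ih).1
      have e : 1 + N0 * k + (j + 1) * d = 1 + N0 * k + j * d + d := by ring
      rwa [e]
  have hdef : ∀ n : ℕ, 1 + N0 * k ≤ n → n ≡ 1 [MOD d] → 0 < gwLaw μ (sizeEvent n) := by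
    intro n hn hmod
    have h1 : 1 + N0 * k ≡ 1 [MOD d] := by
      have h2 : d ∣ N0 * k := (hd2 k hk0).mul_left N0
      have h3 := (Nat.modEq_zero_iff_dvd.2 h2).add_left 1
      simpa using h3
    have h4 : d ∣ n - (1 + N0 * k) := (Nat.modEq_iff_dvd' hn).1 (h1.trans hmod.symm)
    obtain ⟨j, hj⟩ := h4
    have e : n = 1 + N0 * k + j * d := by
      rw [mul_comm j d, ← hj]; omega
    rw [e]
    exact hup j
  refine ⟨d, hd1, hd2, ⟨1 + N0 * k, hdef⟩, ?_⟩
  rw [Metric.tendsto_atTop]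
  intro ε hε
  obtain ⟨N1, hN1⟩ := hd3 ε hε
  refine ⟨1 + N0 * k + N1, fun m hm => ?_⟩
  have hmd : m ≤ m * d := Nat.le_mul_of_pos_right m hd1
  have hmod : 1 + m * d ≡ 1 [MOD d] := by
    have h3 := (Nat.modEq_zero_iff_dvd.2 (dvd_mul_left d m)).add_left 1
    simpa using h3
  have h1 := (hN1 (1 + m * d) (by omega) (hdef (1 + m * d) (by omega) hmod)).2
  have e : 1 + (m + 1) * d = 1 + m * d + d := by ring
  rw [Real.dist_eq, e]
  exact h1

lemma ratio_shift {g : ℕ → ℝ} (hpos : ∀ n : ℕ, 1 ≤ n → 0 < g n)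
    (h : Tendsto (fun n => g (n + 1) / g n) atTop (𝓝 1)) (j : ℕ) :
    Tendsto (fun n => g (n + j) / g n) atTop (𝓝 1) := by
  induction j with
  | zero =>
    refine tendsto_const_nhds.congr' ?_
    filter_upwards [eventually_ge_atTop 1] with n hn
    rw [Nat.add_zero, div_self (hpos n hn).ne']
  | succ j ih =>
    have h1 := (tendsto_add_atTop_iff_nat j).2 h
    have h2 := h1.mul ih
    rw [one_mul] at h2
    refine h2.congr' ?_
    filter_upwards [eventually_ge_atTop 1] with n hn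
    have h3 := (hpos (n + j) (by omega)).ne'
    have h4 := (hpos n hn).ne'
    rw [← Nat.add_assoc]
    field_simp

theorem nogo (g : ℕ → ℝ) (α : ℝ) (hα : Irrational α) (hpos : ∀ n : ℕ, 1 ≤ n → 0 < g n)
    (hg : Tendsto g atTop atTop) (hr : Tendsto (fun n => g (n + 1) / g n) atTop (𝓝 1))
    (μ : PMF ℕ) (c : ℝ) (hμ : IsCritical μ) (hc : 0 < c) :
    ¬ HeightConverges μ (fun n => g n * (1 + Int.fract ((n : ℝ) * α))) c := by
  intro hcv
  set f : ℕ → ℝ := fun n => g n * (1 + Int.fract ((n : ℝ) * α)) with hf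
  have hfpos : ∀ n : ℕ, 1 ≤ n → 0 < f n := fun n hn =>
    mul_pos (hpos n hn) (by have := Int.fract_nonneg ((n : ℝ) * α); linarith)
  have hft : Tendsto f atTop atTop := by
    refine tendsto_atTop_mono' _ ?_ hg
    filter_upwards [eventually_ge_atTop 1] with n hn
    have h1 := Int.fract_nonneg ((n : ℝ) * α)
    have h2 := hpos n hn
    rw [hf]
    simp only
    nlinarith
  obtain ⟨k, hk, hk0⟩ := crit_two hμ
  -- the gap
  set β : ℝ := Int.fract ((k : ℝ) * α) with hβ
  have hβ0 : 0 < β := by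
    rw [hβ, Int.fract_pos]
    intro h
    have h2 : Irrational ((k : ℝ) * α) := by
      have := hα.natCast_mul (m := k) (by omega)
      exact this
    exact h2 ⟨(⌊(k : ℝ) * α⌋ : ℚ), by rw [Rat.cast_intCast]; exact h.symm⟩
  have hβ1 : β < 1 := Int.fract_lt_one _
  set τ : ℝ := min β (1 - β) with hτ
  have hτ0 : 0 < τ := lt_min hβ0 (by linarith)
  have hgap : ∀ n : ℕ, τ ≤ |Int.fract (((n + k : ℕ) : ℝ) * α) - Int.fract ((n : ℝ) * α)| := by
    intro n
    have e : ((n + k : ℕ) : ℝ) * α = (n : ℝ) * α + (k : ℝ) * α := by push_cast; ring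
    rw [e]
    set s : ℝ := Int.fract ((n : ℝ) * α) with hs
    set s' : ℝ := Int.fract ((n : ℝ) * α + (k : ℝ) * α) with hs'
    obtain ⟨z, hz⟩ : ∃ z : ℤ, s' = s + β + z := by
      refine ⟨⌊(n : ℝ) * α⌋ + ⌊(k : ℝ) * α⌋ - ⌊(n : ℝ) * α + (k : ℝ) * α⌋, ?_⟩
      rw [hs', hs, hβ]
      unfold Int.fract
      push_cast
      ring
    have hs0 : 0 ≤ s := Int.fract_nonneg _
    have hs1 : s < 1 := Int.fract_lt_one _
    have hs0' : 0 ≤ s' := Int.fract_nonneg _
    have hs1' : s' < 1 := Int.fract_lt_one _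
    have hz1 : z = 0 ∨ z = -1 := by
      have a1 : (z : ℝ) < 1 := by linarith
      have a2 : (-2 : ℝ) < z := by linarith
      have a3 : z < 1 := by exact_mod_cast a1
      have a4 : -2 < z := by exact_mod_cast a2
      omega
    rcases hz1 with hz1 | hz1
    · rw [hz1] at hz
      have : s' - s = β := by rw [hz]; push_cast; ring
      rw [this, abs_of_pos hβ0]
      exact min_le_left _ _
    · rw [hz1] at hz
      have : s' - s = -(1 - β) := by rw [hz]; push_cast; ring
      rw [this, abs_neg, abs_of_pos (by linarith)]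
      exact min_le_right _ _
  have hev : ∀ᶠ n : ℕ in atTop, τ / 8 ≤ |f (n + k) / f n - 1| := by
    have h2 := ratio_shift hpos hr k
    have h3 : ∀ᶠ n : ℕ in atTop, |g (n + k) / g n - 1| < τ / 8 := by
      have := (Metric.tendsto_nhds.1 h2) (τ / 8) (by positivity)
      simpa [Real.dist_eq] using this
    filter_upwards [h3, eventually_ge_atTop 1] with n hn hn1
    have hg1 := hpos n hn1
    have hgk := hpos (n + k) (by omega)
    set s : ℝ := Int.fract ((n : ℝ) * α) with hs
    set s' : ℝ := Int.fract (((n + k : ℕ) : ℝ) * α) with hs'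
    have hs0 : 0 ≤ s := Int.fract_nonneg _
    have hs1 : s < 1 := Int.fract_lt_one _
    have hs0' : 0 ≤ s' := Int.fract_nonneg _
    have hs1' : s' < 1 := Int.fract_lt_one _
    have hgap' : τ ≤ |s' - s| := hgap n
    set r : ℝ := g (n + k) / g n with hr'
    have hr0 : 0 < r := div_pos hgk hg1
    have e1 : f (n + k) / f n = r * ((1 + s') / (1 + s)) := by
      simp only [hf]
      rw [mul_div_mul_comm]
    rw [e1]
    have e2 : r * ((1 + s') / (1 + s)) - 1 = (s' - s) / (1 + s) + (r - 1) * ((1 + s') / (1 + s)) := by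
      have : (1 + s) ≠ 0 := by positivity
      field_simp
      ring
    rw [e2]
    have e3 : τ / 2 ≤ |(s' - s) / (1 + s)| := by
      rw [abs_div, abs_of_pos (show 0 < 1 + s by linarith), div_le_div_iff₀ (by norm_num) (by linarith)]
      nlinarith
    have e4 : |(r - 1) * ((1 + s') / (1 + s))| ≤ τ / 8 * 2 := by
      rw [abs_mul]
      apply mul_le_mul hn.le _ (abs_nonneg _) (by positivity)
      rw [abs_of_nonneg (by positivity), div_le_iff₀ (by linarith)]
      linarith
    have e5 := abs_sub_abs_le_abs_sub ((s' - s) / (1 + s)) (-((r - 1) * ((1 + s') / (1 + s))))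
    rw [abs_neg, sub_neg_eq_add] at e5
    linarith
  obtain ⟨N, hN⟩ := eventually_atTop.1 hev
  obtain ⟨N', hN'⟩ := necessary hμ hfpos hft hc hcv k (by omega) hk0 (τ / 8) (by positivity)
  have hdef : 0 < gwLaw μ (sizeEvent (1 + (N + N') * k)) := by
    obtain ⟨k, rfl⟩ : ∃ k' : ℕ, k = k' + 1 := ⟨k - 1, by omega⟩
    have hb := bb_pos μ k (crit_zero hμ) hk0
    exact (U_pos_iff μ _).1 (sizes_pos' k 1 le_rfl hb
      ((U_pos_iff μ 1).2 (size_one (crit_zero hμ))) (N + N'))
  have hle : N + N' ≤ 1 + (N + N') * k := by nlinarith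
  have h1 := hN (1 + (N + N') * k) (by omega)
  have h2 := (hN' (1 + (N + N') * k) (by omega) hdef).2
  exact absurd h1 (not_le.2 h2)

/-- slowly varying minorants -/
theorem minorant (G : ℕ → ℝ) (hpos : ∀ n : ℕ, 1 ≤ n → 0 < G n) (hG : Tendsto G atTop atTop) :
    ∃ g : ℕ → ℝ, (∀ n : ℕ, 1 ≤ n → 0 < g n ∧ 2 * g n ≤ G n) ∧ Tendsto g atTop atTop ∧
      Tendsto (fun n => g (n + 1) / g n) atTop (𝓝 1) := by
  classical
  set H : ℕ → ℝ := fun j => if j = 0 then 1 else G j / 2 with hH
  have hHpos : ∀ j, 0 < H j := by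
    intro j
    rw [hH]
    simp only
    split_ifs with h
    · norm_num
    · have := hpos j (by omega); linarith
  have hbdd : ∀ n : ℕ, BddBelow (Set.range (fun j : ℕ => H j + |(n : ℝ) - j|)) := by
    intro n
    refine ⟨0, ?_⟩
    rintro _ ⟨j, rfl⟩
    have := hHpos j
    simp only
    positivity
  set g : ℕ → ℝ := fun n => ⨅ j : ℕ, (H j + |(n : ℝ) - j|) with hg
  have hle : ∀ n : ℕ, 1 ≤ n → 2 * g n ≤ G n := by
    intro n hn
    have h1 : g n ≤ H n + |(n : ℝ) - n| := ciInf_le (hbdd n) n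
    rw [sub_self, abs_zero, add_zero] at h1
    have h2 : H n = G n / 2 := by
      rw [hH]; simp only; rw [if_neg (by omega)]
    linarith
  have hposg : ∀ n : ℕ, 0 < g n := by
    intro n
    have h1 : min 1 (H n) ≤ g n := by
      apply le_ciInf
      intro j
      by_cases h : j = n
      · subst h
        rw [sub_self, abs_zero, add_zero]
        exact min_le_right _ _
      · have h2 : (1 : ℝ) ≤ |(n : ℝ) - j| := by
          have h3 : (1 : ℤ) ≤ |(n : ℤ) - j| := Int.one_le_abs (by omega)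
          exact_mod_cast h3
        have := hHpos j
        exact le_trans (min_le_left _ _) (by linarith)
    exact lt_of_lt_of_le (lt_min one_pos (hHpos n)) h1
  have hlip : ∀ n : ℕ, |g (n + 1) - g n| ≤ 1 := by
    intro n
    rw [abs_le]
    constructor
    · have : g n - 1 ≤ g (n + 1) := by
        apply le_ciInf
        intro j
        have h1 : g n ≤ H j + |(n : ℝ) - j| := ciInf_le (hbdd n) j
        have h2 : |(n : ℝ) - j| ≤ |((n + 1 : ℕ) : ℝ) - j| + 1 := by
          have h3 : (n : ℝ) - j = (((n + 1 : ℕ) : ℝ) - j) + (-1) := by push_cast; ring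
          rw [h3]
          refine (abs_add_le _ _).trans ?_
          simp
        linarith
      linarith
    · have : g (n + 1) - 1 ≤ g n := by
        apply le_ciInf
        intro j
        have h1 : g (n + 1) ≤ H j + |((n + 1 : ℕ) : ℝ) - j| := ciInf_le (hbdd (n + 1)) j
        have h2 : |((n + 1 : ℕ) : ℝ) - j| ≤ |(n : ℝ) - j| + 1 := by
          have h3 : ((n + 1 : ℕ) : ℝ) - j = ((n : ℝ) - j) + 1 := by push_cast; ring
          rw [h3]
          refine (abs_add_le _ _).trans ?_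
          simp
        linarith
      linarith
  have htend : Tendsto g atTop atTop := by
    rw [tendsto_atTop]
    intro A
    obtain ⟨J, hJ⟩ := eventually_atTop.1 (hG.eventually_ge_atTop (2 * A))
    obtain ⟨B, hB⟩ := exists_nat_ge A
    filter_upwards [eventually_ge_atTop (J + 1 + B)] with n hn
    apply le_ciInf
    intro j
    rcases Nat.lt_or_ge j (J + 1) with h | h
    · have h1 : (B : ℝ) ≤ |(n : ℝ) - j| := by
        refine le_trans ?_ (le_abs_self _)
        have : (B : ℝ) + j ≤ n := by exact_mod_cast (by omega : B + j ≤ n)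
        linarith
      have := hHpos j
      linarith
    · have h1 : H j = G j / 2 := by
        rw [hH]; simp only; rw [if_neg (by omega)]
      have h2 := hJ j (by omega)
      have h3 := abs_nonneg ((n : ℝ) - j)
      rw [h1]
      linarith
  refine ⟨g, fun n hn => ⟨hposg n, hle n hn⟩, htend, ?_⟩
  have h1 : Tendsto (fun n => (g n)⁻¹) atTop (𝓝 0) := tendsto_inv_atTop_zero.comp htend
  have h2 : Tendsto (fun n => g (n + 1) / g n - 1) atTop (𝓝 0) := by
    refine squeeze_zero_norm ?_ h1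
    intro n
    have h3 := hposg n
    have h4 : g (n + 1) / g n - 1 = (g (n + 1) - g n) / g n := by field_simp
    rw [h4, Real.norm_eq_abs, abs_div, abs_of_pos h3, inv_eq_one_div]
    exact div_le_div_of_nonneg_right (hlip n) h3.le
  have h3 := h2.add_const 1
  simpa using h3

/-- **Necessary condition in Q2, and arbitrarily slow scales for which the answer is no.**
(1) If `H(T_n) / (f n * log n) → c ∈ (0, ∞)` in probability for a critical offspring law `μ`, then
there is `d ≥ 1` which divides all `k` with `μ k ≠ 0`, such that `T_n` is defined for all large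
`n ≡ 1` modulo `d` and `f (n + d) / f n → 1` along these `n`. (2) For irrational `α` and
`f n = g n * (1 + {n α})`, where `g → ∞` and `g (n + 1) / g n → 1`, there is no critical `μ` and no
`c`. (3) Below every `g → ∞` there is `f → ∞` for which there is no critical `μ` and no `c`. -/
theorem result :
    (∀ (μ : PMF ℕ) (f : ℕ → ℝ) (c : ℝ), IsCritical μ → (∀ n : ℕ, 1 ≤ n → 0 < f n) →
      Tendsto f atTop atTop → 0 < c → HeightConverges μ f c →
      ∃ d : ℕ, 1 ≤ d ∧ (∀ k : ℕ, μ k ≠ 0 → d ∣ k) ∧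
        (∃ N : ℕ, ∀ n : ℕ, N ≤ n → n ≡ 1 [MOD d] → 0 < gwLaw μ (sizeEvent n)) ∧
        Tendsto (fun m : ℕ => f (1 + (m + 1) * d) / f (1 + m * d)) atTop (𝓝 1)) ∧
    (∀ (g : ℕ → ℝ) (α : ℝ), Irrational α → (∀ n : ℕ, 1 ≤ n → 0 < g n) → Tendsto g atTop atTop →
      Tendsto (fun n => g (n + 1) / g n) atTop (𝓝 1) →
      ∀ (μ : PMF ℕ) (c : ℝ), IsCritical μ → 0 < c →
        ¬ HeightConverges μ (fun n => g n * (1 + Int.fract ((n : ℝ) * α))) c) ∧
    (∀ g : ℕ → ℝ, (∀ n : ℕ, 1 ≤ n → 0 < g n) → Tendsto g atTop atTop →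
      ∃ f : ℕ → ℝ, (∀ n : ℕ, 1 ≤ n → 0 < f n ∧ f n ≤ g n) ∧ Tendsto f atTop atTop ∧
        ∀ (μ : PMF ℕ) (c : ℝ), IsCritical μ → 0 < c → ¬ HeightConverges μ f c) := by
  refine ⟨?_, nogo, ?_⟩
  · intro μ f c hμ hpos hf hc hcv
    exact necessary_span hμ hpos hf hc hcv
  · intro G hpos hG
    obtain ⟨g, h1, h2, h3⟩ := minorant G hpos hG
    have hirr : Irrational (Real.sqrt 2) := irrational_sqrt_two
    refine ⟨fun n => g n * (1 + Int.fract ((n : ℝ) * Real.sqrt 2)), ?_, ?_, ?_⟩
    · intro n hn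
      have a1 := Int.fract_nonneg ((n : ℝ) * Real.sqrt 2)
      have a2 := (Int.fract_lt_one ((n : ℝ) * Real.sqrt 2)).le
      obtain ⟨b1, b2⟩ := h1 n hn
      refine ⟨mul_pos b1 (by linarith), ?_⟩
      nlinarith
    · refine tendsto_atTop_mono' _ ?_ h2
      filter_upwards [eventually_ge_atTop 1] with n hn
      have a1 := Int.fract_nonneg ((n : ℝ) * Real.sqrt 2)
      obtain ⟨b1, b2⟩ := h1 n hn
      nlinarith
    · exact nogo g (Real.sqrt 2) hirr (fun n hn => (h1 n hn).1) h2 h3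

end

end Pool.Agent.Results.MP_d1698a_pr.LocalRegularity
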